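import Mathlib
import Pool.Agent.Y241.HBN.Main

set_option autoImplicit false

namespace Pool.Agent.Results.MP_d885f5_ag.StableUnderBlowUp

open Pool.Agent.W512.Harbourne Pool.Agent.Y241.HBN

/-- The bound of Harbourne fails on the blow-up of the product of two projective lines in every
finite set of points of `ℂ × ℂ` that contains the sixteen points over the eight points `E8` under
`(x, y) ↦ (x, y ^ 2 + l)`, for all complex numbers `l` outside of a countable set.  So it fails on
some blow-up in `n` points for every `n ≥ 16`, and every blow-up in points of `ℂ × ℂ` has a further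
blow-up, in at most sixteen more points, such that the bound fails on it and on all its further
blow-ups in points of `ℂ × ℂ`. -/
theorem result :
    (∃ C : Set ℂ, C.Countable ∧ ∀ l : ℂ, l ∉ C → (pre l).ncard = 16 ∧
      ∀ Z : Finset (ℂ × ℂ), pre l ⊆ Z → Fails Z) ∧
    (∀ n : ℕ, 16 ≤ n → ∃ Z : Finset (ℂ × ℂ), Z.card = n ∧ Fails Z) ∧
    (∀ S : Finset (ℂ × ℂ), ∃ Z : Finset (ℂ × ℂ), S ⊆ Z ∧ Z.card ≤ S.card + 16 ∧
      ∀ Z' : Finset (ℂ × ℂ), Z ⊆ Z' → Fails Z') :=
  ⟨final, final3, final2⟩

end Pool.Agent.Results.MP_d885f5_ag.StableUnderBlowUp
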